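import Mathlib
import Pool.Agent.H204R3.GP.Defs
import Pool.Agent.H204R3.GP.FrobG

/-!
# The Tate conjecture for abelian varieties over number fields with one good Frobenius element

Let `A` be an abelian variety over a number field `K`, of any dimension and with arbitrary
endomorphisms.  Suppose that `A` has good reduction at ONE place `v` (of residue field with `p ^ a`
elements) such that the characteristic polynomial of the Frobenius element is the product of the
minimal polynomials of Weil numbers `π i`, where

* the fields `F i = ℚ(π i)` are CM fields of 2-power degree `2 ^ (d i + 1)`, and their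
  discriminants are independent modulo squares: no product of the discriminants over a nonempty set
  of indices is a square (for one field: its discriminant is not a square);
* for each `i` the numbers `2 s - 1`, `s` a slope of `π i`, all have the same 2-adic valuation
  (`OddSlopes`; for instance `A` is ordinary at `v`, or all slopes have odd denominators).

Then for all primes `ℓ` not divisible by `v` all Tate classes in the `ℓ`-adic cohomology of all the
powers of `A` are linear combinations of wedge products of Tate classes of degree two; by the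
theorem of Faltings these are classes of divisors.  So the Tate conjecture holds for all powers
of `A`.

In the Lean statement `V` is the rational Tate module with the action `ρ` of the Galois group, `ω`
is the Weil pairing of a polarization, `χ` is the cyclotomic character and `γ` the (arithmetic)
Frobenius element at `v`.

The proof.  A parity argument (an element of the Galois group which acts on the conjugates of the
`π i` by an odd permutation, and the transitivity of Sylow 2-subgroups on the pairs of conjugates)
shows that the conjugates of the Weil numbers satisfy no multiplicative relations besides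
`π * conj π = q`.  So the Lie algebra of the endomorphisms of `V` that kill all Tate classes
contains a Cartan subalgebra of the symplectic Lie algebra; by semisimplicity it is, over a finite
extension of `ℚ_ℓ`, a product of symplectic and general linear Lie algebras, and the first
fundamental theorem for these (which we prove by a Capelli type argument) gives the result.
-/

namespace Pool.Agent.Results.MP_938ce2_ag.OneFrobenius

open NumberField Module Pool.Agent.H204R3.GP Pool.Agent.H204R3.SP IntermediateField

/-- If the characteristic polynomial of one element `γ` of the Galois group is the product of the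
minimal polynomials of Weil numbers `π i` with odd slopes which generate CM fields of 2-power degree
with discriminants independent modulo squares, all Tate classes on all powers are generated in
degree two. -/
theorem result (ℓ p : ℕ) [Fact ℓ.Prime] [Fact p.Prime] (a : ℕ) (ha : 0 < a)
    {ι : Type} [Fintype ι] (F : ι → Type) [∀ i, Field (F i)] [∀ i, NumberField (F i)]
    [∀ i, IsCMField (F i)] (π : ∀ i, F i) (hgen : ∀ i, ℚ⟮π i⟯ = ⊤)
    (hweil : ∀ i, π i * IsCMField.complexConj (F i) (π i) = (p : F i) ^ a)
    (hslope : ∀ i, OddSlopes p a (π i))
    (d : ι → ℕ) (hdeg : ∀ i, finrank ℚ (F i) = 2 ^ (d i + 1))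
    (hdisc : ∀ S : Finset ι, S.Nonempty → ¬ IsSquare (∏ i ∈ S, discr (F i)))
    {V : Type} [AddCommGroup V] [Module ℚ_[ℓ] V] [FiniteDimensional ℚ_[ℓ] V]
    {Γ : Type} [Group Γ] (ρ : Representation ℚ_[ℓ] Γ V) (χ : Γ →* ℚ_[ℓ])
    (ω : V →ₗ[ℚ_[ℓ]] V →ₗ[ℚ_[ℓ]] ℚ_[ℓ]) (halt : ∀ v, ω v v = 0)
    (hnondeg : ∀ u, (∀ v, ω v u = 0) → u = 0)
    (hω : ∀ s u v, ω (ρ s u) (ρ s v) = χ s * ω u v)
    (hss : FiniteIndexSemisimple ρ)
    (γ : Γ) (hχ : χ γ = (p : ℚ_[ℓ]) ^ a)
    (hγ : (ρ γ).charpoly = ∏ i, (minpoly ℚ (π i)).map (algebraMap ℚ ℚ_[ℓ])) :
    TateGeneratedInDegreeTwo ρ χ := by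
  intro n m f hf
  obtain ⟨Δ, hΔ, hf⟩ := hf
  have hss' : ∀ Δ : Subgroup Γ, Δ.FiniteIndex → SemiUnder (ρ '' (Δ : Set Γ)) := by
    intro Δ hΔ U hU
    obtain ⟨U', h1, h2⟩ := hss Δ hΔ U (fun s hs u hu => hU _ ⟨s, hs, rfl⟩ u hu)
    refine ⟨U', ?_, h2⟩
    rintro _ ⟨s, hs, rfl⟩ u hu
    exact h1 s hs u hu
  have h1 := altG_of_tate_mem ρ χ (n := n) (m := m) (fun φ hφ => tate_of_frobenius ha hgen hweil
    hslope hdeg hdisc ρ χ ω halt hnondeg hω hss' γ hχ hγ φ hφ) f Δ hΔ hf
  refine Submodule.span_mono ?_ h1
  rintro g ⟨B, hB, hg⟩
  refine ⟨B, fun l => ?_, hg⟩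
  obtain ⟨Δ', hΔ', h2⟩ := hB l
  refine ⟨Δ', hΔ', fun s hs v => ?_⟩
  rw [pow_one]
  exact h2 s hs v

end Pool.Agent.Results.MP_938ce2_ag.OneFrobenius
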