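import Mathlib
import Pool.Agent.H204R3.GP.Defs
import Pool.Agent.H204R3.GP.Neat
import Pool.Agent.H194R3.Tate.CharZero

/-!
# The Tate conjecture for abelian varieties over number fields with one pair-transitive Frobenius

Let `A` be an abelian variety over a number field (or a finitely generated field of characteristic
zero), of any dimension and with arbitrary endomorphisms.  Suppose that `A` has good reduction at
ONE place `v` (with residue field of `p ^ a` elements) such that the characteristic polynomial of
the Frobenius element is the product of the minimal polynomials of Weil numbers `π i`, all powers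
of which generate CM fields `F i` of degree `2 * n i` with the following properties. The maximal
real subfield of `F i` is pair-transitive (the automorphisms of the complex numbers act transitively
on the unordered pairs of its embeddings; there is no other condition on `F i`), and `n i` is odd,
or `n i - 1` is prime, or the action on the unordered triples is transitive as well (for example:
the Galois group of the real subfield is the symmetric or alternating group, of any degree). No
`π i` is of Weil type. Embeddings of `F i` and `F j`, for different `i` and `j`, are flipped. There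
is no condition on the slopes.

Then for all primes `ℓ` not divisible by `v` all Tate classes in the `ℓ`-adic cohomology of all the
powers of `A` are linear combinations of wedge products of Tate classes of degree two; by the
theorem of Faltings these are classes of divisors.  So the Tate conjecture holds for all powers
of `A`.

In the Lean statement `V` is the rational Tate module with the action `ρ` of the Galois group, `ω`
is the Weil pairing of a polarization, `χ` is the cyclotomic character and `γ` the (arithmetic)
Frobenius element at `v`.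
-/

namespace Pool.Agent.Results.MP_938ce2_ag.PairTransitiveFrobenius

open NumberField Module Pool.Agent.H204R3.GP Pool.Agent.H204R3.SP IntermediateField
  Pool.Agent.H194R3.CM Pool.Agent.H194R3.Tate

/-- If the characteristic polynomial of one element `γ` of the Galois group is the product of the
minimal polynomials of Weil numbers `π i`, absolutely generating CM fields `F i` with pair-transitive
maximal real subfields, not of Weil type, different fields flipped, all Tate classes on all powers
are generated in degree two. -/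
theorem result (ℓ p : ℕ) [Fact ℓ.Prime] [Fact p.Prime] (a : ℕ) (ha : 0 < a)
    {ι : Type} [Fintype ι] (F : ι → Type) [∀ i, Field (F i)] [∀ i, NumberField (F i)]
    [∀ i, IsCMField (F i)]
    (hpair : ∀ i, PairTransitive (maximalRealSubfield (F i)))
    (hdeg : ∀ i, Odd (finrank ℚ (maximalRealSubfield (F i))) ∨
      (finrank ℚ (maximalRealSubfield (F i)) - 1).Prime ∨
        TripleTransitive (maximalRealSubfield (F i)))
    (hflip : ∀ x y : Σ i, (F i →+* ℂ), y.1 ≠ x.1 → Flipped x y)
    (π : ∀ i, F i) (hint : ∀ i, IsIntegral ℤ (π i))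
    (hgen : ∀ i, ∀ s : ℕ, 0 < s → ℚ⟮π i ^ s⟯ = ⊤)
    (hweil : ∀ i, π i * IsCMField.complexConj (F i) (π i) = (p : F i) ^ a)
    (hW : ∀ i, ¬ WeilSlopes p (π i) a)
    {V : Type} [AddCommGroup V] [Module ℚ_[ℓ] V] [FiniteDimensional ℚ_[ℓ] V]
    {Γ : Type} [Group Γ] (ρ : Representation ℚ_[ℓ] Γ V) (χ : Γ →* ℚ_[ℓ])
    (ω : V →ₗ[ℚ_[ℓ]] V →ₗ[ℚ_[ℓ]] ℚ_[ℓ]) (halt : ∀ v, ω v v = 0)
    (hnondeg : ∀ u, (∀ v, ω v u = 0) → u = 0)
    (hω : ∀ s u v, ω (ρ s u) (ρ s v) = χ s * ω u v)
    (hss : FiniteIndexSemisimple ρ)
    (γ : Γ) (hχ : χ γ = (p : ℚ_[ℓ]) ^ a)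
    (hγ : (ρ γ).charpoly = ∏ i, (minpoly ℚ (π i)).map (algebraMap ℚ ℚ_[ℓ])) :
    TateGeneratedInDegreeTwo ρ χ := by
  intro n m f hf
  obtain ⟨Δ, hΔ, hf⟩ := hf
  have hss' : ∀ Δ : Subgroup Γ, Δ.FiniteIndex → SemiUnder (ρ '' (Δ : Set Γ)) := by
    intro Δ hΔ U hU
    obtain ⟨U', h1, h2⟩ := hss Δ hΔ U (fun s hs u hu => hU _ ⟨s, hs, rfl⟩ u hu)
    refine ⟨U', ?_, h2⟩
    rintro _ ⟨s, hs, rfl⟩ u hu
    exact h1 s hs u hu
  obtain ⟨L, hL1, hL2, j, h⟩ := Pool.Agent.H204R3.CM.exists_galois F
  let e : L →ₐ[ℚ] PadicAlgCl p := IsAlgClosed.lift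
  have hweil' : ∀ i, ∀ φ : F i →+* ℂ, ‖φ (π i)‖ ^ 2 = (((p : ℚ) ^ a : ℚ) : ℝ) :=
    fun i φ => norm_of_weil p a (π i) (hweil i) φ
  have hnd := norel_of_pair p (fun _ => a) π hint hgen hweil' hpair hdeg hW hflip
  have hneat := neat_of_norel p a π hweil' e (hnd L hL1 hL2 j h e)
  have hgen1 : ∀ i, ℚ⟮π i⟯ = ⊤ := fun i => by simpa only [pow_one] using hgen i 1 one_pos
  have h1 := altG_of_tate_mem ρ χ (n := n) (m := m) (fun φ hφ => tate_of_neat ha hgen1 hweil
    j h hneat ρ χ ω halt hnondeg hω hss' γ hχ hγ φ hφ) f Δ hΔ hf
  refine Submodule.span_mono ?_ h1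
  rintro g ⟨B, hB, hg⟩
  refine ⟨B, fun l => ?_, hg⟩
  obtain ⟨Δ', hΔ', h2⟩ := hB l
  refine ⟨Δ', hΔ', fun s hs v => ?_⟩
  rw [pow_one]
  exact h2 s hs v

end Pool.Agent.Results.MP_938ce2_ag.PairTransitiveFrobenius
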