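import Pool.Agent.H447R3.ChA

open CategoryTheory AlgebraicGeometry

universe u v w x

open Pool.Agent.H914 Pool.Agent.H914.VarClass Pool.Agent.H914.VarClass.Obj Pool.Agent.H447

/-- **The Tate conjecture for all products follows from products of a bounded number of factors,
potentially abelian case.** Let `W` be a Weil cohomology theory with coefficient field `K` on
smooth proper varieties over an algebraically closed field, `Γ` a set with a filter `F`, `χ` a
nowhere vanishing function on `Γ` and `C` a finite set of pairs of a degree and a function from `Γ`
to `K`. There is a number `N` such that for every family of varieties `X i`, whose products carry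
operators indexed by `Γ` compatible with the Künneth formula, and such that the cohomology of each
`X i` is spanned by eigenvectors whose degrees and systems of eigenvalues (on a member of `F`) are
in `C`, the Tate conjecture for all products of at most `N` of the `X i` implies the Tate
conjecture for all products of any number of the `X i`. (In the intended use `Γ` is the Galois
group of a number field, `F` is the filter of neighbourhoods of `1`, `χ` is the inverse of the
cyclotomic character, and an open subgroup acts on the cohomology of the `X i` through an abelian
quotient and semisimply.) -/
theorem Pool.Agent.Results.MP_938ce2_ag.PotentiallyAbelianProducts.result {k : Type u} [Field k]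
    [IsAlgClosed k] {𝒱 : VarClass k} {ops : CycleOps 𝒱} (W : WeilCohomology.{u, v} ops)
    {Γ : Type x} (F : Filter Γ) (χ : Γ → W.K) (hχ : ∀ g, χ g ≠ 0)
    (C : Set (ℕ × (Γ → W.K))) (hC : C.Finite) :
    ∃ N : ℕ, ∀ {ι : Type w} (X : ι → 𝒱.Obj) (A : ProductAction W X Γ),
      SpannedByEigenclasses A F C → (∀ i l, l.length < N → TateOnProduct A F χ i l) →
      ∀ i l, TateOnProduct A F χ i l :=
  tate_characters W F χ hχ C hC
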